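import Pool.Agent.Helper95.AG.Defs
import Pool.Agent.Helper94.AF.Net

/-! # Project AG, block NT': a finite net in a set of parameters -/

set_option autoImplicit false
open MeasureTheory Real Set Filter Topology
open scoped ENNReal

namespace Pool.Agent.Helper94.AG

open Pool.Agent.Helper18.UC (nn LL sqo rep toT)
open Pool.Agent.Helper46.QP (TT Td)
open Pool.Agent.Helper82.AN (Ik Ow lawL wt bas eta Hw sq SepR)
open Pool.Agent.Helper95.AF (st po mt pM shb tst Fa gA nv ip bad Den rr un frc DC Ho)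
open Pool.Agent.Helper95.AG (Bx)
open Pool.Agent.Helper94.AF (cells hold frc_near num_net)

variable {d : ℕ}

/-- **NT'** -/
theorem net_ex (γ : ℝ) {k : ℕ} {e : Fin k → Td d → ℝ} (he : ∀ i, Ho (e i)) : ∃ G : ℝ, 1 ≤ G ∧ ∀ (n : ℕ) (L : ℝ), 1 ≤ n → 1 ≤ L →
    ∀ S : Set (ℝ × (Fin (k + 1) → ℝ) × Td d), S ⊆ Bx k L →
    ∃ N : Finset (ℝ × (Fin (k + 1) → ℝ) × Td d), (N.card : ℝ) ≤ Real.exp (G * n * L) ∧ ↑N ⊆ S ∧
      ∀ u ∈ S, ∃ v ∈ N, ∀ w : Ow d, Hw γ w ≤ ENNReal.ofReal (Real.exp L) →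
        (∀ x y, |eta γ w x - eta γ w y| ≤ Real.exp L * dist x y) → ∀ (θ : Td d) (m m' : ℕ), m + m' ≤ n → ∀ z,
          |Real.log (nn (pM u.1 (shb (sq u.2.2 (frc γ e u.2.1 w) θ) m) m' z)) -
            Real.log (nn (pM v.1 (shb (sq v.2.2 (frc γ e v.2.1 w) θ) m) m' z))| ≤ 1 := by
  obtain ⟨C, hC, hnear⟩ := Pool.Agent.Helper4.AF.pM_near
  obtain ⟨K, r, hK, hr, hr1, hhold⟩ := hold he
  set c : ℝ := Real.log (2 * (k * K + 1)) with hc
  have hk0 : 0 ≤ (k : ℝ) * K := by positivity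
  have hc0 : 0 ≤ c := Real.log_nonneg (by linarith)
  set q : ℝ := 5 + c + 2 * C * (2 + Real.log C) with hq
  have hlC := Real.log_nonneg hC
  have hq5 : 5 ≤ q := by
    have : 0 ≤ 2 * C * (2 + Real.log C) := by positivity
    rw [hq]
    linarith
  set g : ℝ := q / r with hg
  have hg5 : 5 ≤ g := by
    rw [hg, le_div_iff₀ hr]
    nlinarith
  refine ⟨(k + 1 + d + 1) * (4 + g), ?_, ?_⟩
  · have h1 : (1 : ℝ) ≤ k + 1 + d + 1 := by
      have : (0 : ℝ) ≤ (k : ℝ) := by positivity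
      have : (0 : ℝ) ≤ (d : ℝ) := by positivity
      linarith
    nlinarith
  intro n L hn hL S hSB
  have hn1 : (1 : ℝ) ≤ n := by exact_mod_cast hn
  have hnL : (1 : ℝ) ≤ n * L := by nlinarith
  set Λ : ℝ := Real.exp (L + 1) with hΛ
  have hΛ1 : 1 ≤ Λ := Real.one_le_exp (by linarith)
  set μ : ℝ := Real.exp (-(g * n * L)) with hμ
  have hμ0 : 0 < μ := Real.exp_pos _
  have hμ1 : μ ≤ 1 := Real.exp_le_one_iff.2 (by
    have : 0 ≤ g * n * L := by positivity
    linarith)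
  set H : ℝ := 2 * (k * K + 1) * Λ ^ 2 * n * μ ^ r with hH
  have hH0 : 0 < H := by positivity
  have hHexp : H = Real.exp (c + 2 * (L + 1) + Real.log n - q * n * L) := by
    rw [hH, Real.exp_sub, Real.exp_add, Real.exp_add, hc, Real.exp_log (by positivity), Real.exp_log (by linarith),
      hμ, ← Real.exp_mul, hΛ, ← Real.exp_nat_mul]
    have e1 : -(g * n * L) * r = -(q * n * L) := by
      rw [hg]
      field_simp
    rw [e1, Real.exp_neg]
    push_cast
    rw [div_eq_mul_inv]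
  have hHC : H * (C * Λ) ^ (C * ((n : ℝ) + 1)) ≤ 1 := by
    have e1 : C * Λ = Real.exp (Real.log C + L + 1) := by
      rw [add_assoc, Real.exp_add, Real.exp_log (by linarith), hΛ]
    rw [hHexp, e1, ← Real.exp_mul, ← Real.exp_add, Real.exp_le_one_iff]
    have := num_net (n := n) hn hL hc0 hC hq
    linarith
  have hμH : μ ≤ H := by
    have hμr : μ ≤ μ ^ r := by
      have := Real.rpow_le_rpow_of_exponent_ge' hμ0.le hμ1 hr.le hr1
      rwa [Real.rpow_one] at this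
    have e1 : (1 : ℝ) ≤ 2 * (k * K + 1) * Λ ^ 2 * n := by
      have e2 : (1 : ℝ) ≤ 2 * (k * K + 1) := by linarith
      have e3 : (1 : ℝ) ≤ Λ ^ 2 := one_le_pow₀ hΛ1
      calc (1 : ℝ) = 1 * 1 * 1 := by ring
        _ ≤ 2 * (k * K + 1) * Λ ^ 2 * n := by gcongr
    rw [hH]
    have := Real.rpow_pos_of_pos hμ0 r
    nlinarith
  -- the cells
  let G : ℝ × (Fin (k + 1) → ℝ) × Td d → Option (Fin (k + 1) ⊕ Fin d) → ℤ := fun u o => match o with
    | none => ⌊u.1 / μ⌋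
    | some (Sum.inl i) => ⌊u.2.1 i / μ⌋
    | some (Sum.inr m) => ⌊((AddCircle.equivIco (1 : ℝ) 0 (u.2.2 m) : ℝ)) / μ⌋
  set B : ℕ := ⌈Λ / μ⌉₊ + 1 with hB
  have hfl : ∀ y : ℝ, |y| ≤ Λ → |⌊y / μ⌋| ≤ (B : ℤ) := by
    intro y hy
    have h1 : |y / μ| ≤ Λ / μ := by
      rw [abs_div, abs_of_pos hμ0]
      exact div_le_div_of_nonneg_right hy hμ0.le
    have h2 := Nat.le_ceil (Λ / μ)
    have h3 := abs_le.1 (h1.trans h2)
    rw [abs_le, hB]
    push_cast
    constructor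
    · have h4 : (-(⌈Λ / μ⌉₊ : ℤ)) ≤ ⌊y / μ⌋ := by
        rw [Int.le_floor]
        push_cast
        exact h3.1
      linarith
    · have h4 : ((⌊y / μ⌋ : ℤ) : ℝ) ≤ ((⌈Λ / μ⌉₊ : ℤ) : ℝ) := by
        push_cast
        exact (Int.floor_le _).trans h3.2
      have h5 : ⌊y / μ⌋ ≤ (⌈Λ / μ⌉₊ : ℤ) := by exact_mod_cast h4
      linarith
  obtain ⟨N, hN1, hN2, hN3⟩ := cells S G B (by
    intro u hu
    obtain ⟨-, hu1, hu2⟩ := hSB hu
    rintro (_ | i | m)
    · exact hfl _ hu1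
    · exact hfl _ (hu2 i)
    · refine hfl _ ?_
      have h1 := (AddCircle.equivIco (1 : ℝ) 0 (u.2.2 m)).2
      have h2 := h1.1
      have h3 := h1.2
      rw [abs_of_nonneg h2]
      linarith)
  have hcell : ∀ x y : ℝ, ⌊x / μ⌋ = ⌊y / μ⌋ → |x - y| ≤ μ := by
    intro x y h
    have h1 := Int.abs_sub_lt_one_of_floor_eq_floor h
    rw [← sub_div, abs_div, abs_of_pos hμ0, div_lt_one hμ0] at h1
    exact h1.le
  refine ⟨N, hN1.trans ?_, hN2, ?_⟩
  · -- the number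
    have h1 : (2 * (B : ℝ) + 1) ≤ Real.exp ((4 + g) * (n * L)) := by
      have h2 : (⌈Λ / μ⌉₊ : ℝ) ≤ Λ / μ + 1 := (Nat.ceil_lt_add_one (by positivity)).le
      have h3 : 1 ≤ Λ / μ := by
        rw [le_div_iff₀ hμ0]
        linarith
      have h4 : 2 * (B : ℝ) + 1 ≤ 7 * (Λ / μ) := by
        rw [hB]
        push_cast
        linarith
      have h5 : (7 : ℝ) ≤ Real.exp 2 := by
        have e2 := Real.exp_one_gt_d9
        have e3 : Real.exp 2 = Real.exp 1 * Real.exp 1 := by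
          rw [← Real.exp_add]
          norm_num
        rw [e3]
        nlinarith
      refine h4.trans ?_
      calc 7 * (Λ / μ) ≤ Real.exp 2 * (Λ / μ) := mul_le_mul_of_nonneg_right h5 (by positivity)
        _ = Real.exp (2 + (L + 1) + g * n * L) := by
            rw [hΛ, hμ, Real.exp_neg, div_inv_eq_mul, Real.exp_add (2 + (L + 1)) (g * n * L), Real.exp_add 2 (L + 1)]
            ring
        _ ≤ _ := by
            refine Real.exp_le_exp.2 ?_
            have h6 : L ≤ n * L := by nlinarith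
            linarith
    have h2 : Fintype.card (Option (Fin (k + 1) ⊕ Fin d)) = k + 1 + d + 1 := by
      simp
    rw [h2]
    calc (2 * (B : ℝ) + 1) ^ (k + 1 + d + 1) ≤ (Real.exp ((4 + g) * (n * L))) ^ (k + 1 + d + 1) :=
          pow_le_pow_left₀ (by positivity) h1 _
      _ = _ := by
          rw [← Real.exp_nat_mul]
          congr 1
          push_cast
          ring
  · intro u hu
    obtain ⟨v, hv, hvu⟩ := hN3 u hu
    have hvB := hSB (hN2 hv)
    have huB := hSB hu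
    refine ⟨v, hv, fun w hw hlip θ m m' hm z => ?_⟩
    have hG : ∀ o, G v o = G u o := fun o => congrFun hvu o
    have ha : |u.1 - v.1| ≤ μ := hcell _ _ (hG none).symm
    have hU : ∀ i, |u.2.1 i - v.2.1 i| ≤ μ := fun i => hcell _ _ (hG (some (Sum.inl i))).symm
    have hα : dist u.2.2 v.2.2 ≤ μ := by
      rw [dist_pi_le_iff hμ0.le]
      intro m
      have h1 := hcell _ _ (hG (some (Sum.inr m))).symm
      have h2 := AddCircle.coe_equivIco (p := (1 : ℝ)) (a := 0) (y := u.2.2 m)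
      have h3 := AddCircle.coe_equivIco (p := (1 : ℝ)) (a := 0) (y := v.2.2 m)
      have h4 : dist (u.2.2 m) (v.2.2 m) ≤ |((AddCircle.equivIco (1 : ℝ) 0 (u.2.2 m) : ℝ)) -
          ((AddCircle.equivIco (1 : ℝ) 0 (v.2.2 m) : ℝ))| := by
        conv_lhs => rw [← h2, ← h3]
        rw [dist_eq_norm, ← AddCircle.coe_sub]
        exact QuotientAddGroup.norm_mk_le_norm
      exact h4.trans h1
    have hwf : Hw γ w ≠ ∞ := ne_top_of_le_ne_top ENNReal.ofReal_ne_top hw
    have hLΛ : Real.exp L ≤ Λ := Real.exp_le_exp.2 (by linarith)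
    have hη : ∀ x, |eta γ w x| ≤ Λ := fun x =>
      ((Pool.Agent.Helper82.AN.eta_le hwf x).trans (ENNReal.toReal_le_of_le_ofReal (Real.exp_pos _).le hw)).trans hLΛ
    have hη' : ∀ x y, |eta γ w x - eta γ w y| ≤ Λ * dist x y := fun x y =>
      (hlip x y).trans (mul_le_mul_of_nonneg_right hLΛ dist_nonneg)
    have hpow : H * (C * Λ) ^ (C * ((m' : ℝ) + 1)) ≤ 1 := by
      refine le_trans ?_ hHC
      refine mul_le_mul_of_nonneg_left ?_ hH0.le
      refine Real.rpow_le_rpow_of_exponent_le (by nlinarith) ?_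
      have h5 : (m' : ℝ) ≤ n := by exact_mod_cast (by omega : m' ≤ n)
      exact mul_le_mul_of_nonneg_left (by linarith) (by linarith)
    refine (hnear Λ H m' u.1 v.1 _ _ hΛ1 huB.2.1 hvB.2.1 hH0.le (ha.trans hμH) ?_ hpow z).trans hpow
    intro j hj
    show |frc γ e u.2.1 w (θ + (j + m) • u.2.2) - frc γ e v.2.1 w (θ + (j + m) • v.2.2)| ≤ H
    exact frc_near hK hr hr1 hhold hΛ1 hμ0 hμ1 hη hη' hU hvB.2.2 hα hn (by omega) θ

end Pool.Agent.Helper94.AG
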